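import Pool.Agent.helper68.B2.Defs

/-! # B2, module b2:AD: polarized adjugate identities -/

set_option autoImplicit false

namespace Pool.Agent.helper68.B2

open scoped ContDiff Topology Matrix
open Matrix Set

section
variable {K : Type*} [Field K]

theorem AD_add (A B : Matrix (Fin 3) (Fin 3) K) :
    (A + B).adjugate = A.adjugate + crossM A B + B.adjugate := by
  ext i j
  fin_cases i <;> fin_cases j <;>
    simp [crossM, Matrix.adjugate_fin_three, Matrix.mul_apply, Matrix.trace, Fin.sum_univ_three] <;>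
    ring

theorem AD_vec (a b c d : Fin 3 → K) :
    crossM (vecMulVec a b) (vecMulVec c d) = vecMulVec (crossProduct b d) (crossProduct a c) := by
  ext i j
  fin_cases i <;> fin_cases j <;>
    simp [crossM, cross_apply, Matrix.vecMulVec_apply, Matrix.mul_apply, Matrix.trace,
      Fin.sum_univ_three] <;>
    ring

/-- cross product of the images under `G` -/
theorem AD_cross_gen (G : Matrix (Fin 3) (Fin 3) K) (a b : Fin 3 → K) :
    crossProduct (G *ᵥ a) (G *ᵥ b) = (G.adjugate)ᵀ *ᵥ crossProduct a b := by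
  ext i
  fin_cases i <;>
    simp [cross_apply, Matrix.adjugate_fin_three, Matrix.mulVec, dotProduct,
      Fin.sum_univ_three] <;>
    ring

theorem AD_cross_G (G : Matrix (Fin 3) (Fin 3) K) (hG : Gᵀ = G) (a b : Fin 3 → K) :
    crossProduct (G *ᵥ a) (G *ᵥ b) = G.adjugate *ᵥ crossProduct a b := by
  rw [AD_cross_gen, Matrix.adjugate_transpose, hG]

/-- `crossM` is additive in the second variable -/
theorem AD_cross_add (A B C : Matrix (Fin 3) (Fin 3) K) :
    crossM A (B + C) = crossM A B + crossM A C := by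
  simp only [crossM, Matrix.add_mul, Matrix.trace_add, smul_add, add_smul,
    mul_add, sub_smul]
  abel

theorem AD_adj_dyad (a b : Fin 3 → K) : (vecMulVec a b).adjugate = 0 := by
  ext i j
  fin_cases i <;> fin_cases j <;>
    simp [Matrix.adjugate_fin_three, Matrix.vecMulVec_apply] <;>
    ring

theorem AD_odot (G : Matrix (Fin 3) (Fin 3) K) (hG : Gᵀ = G) (u w : Fin 3 → K) :
    (odot G u w).adjugate
      = -vecMulVec (G.adjugate *ᵥ crossProduct u w) (crossProduct u w) := by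
  rw [odot, AD_add, AD_adj_dyad, AD_adj_dyad, AD_vec, AD_cross_G G hG, zero_add, add_zero]
  rw [← cross_anticomm u w, Matrix.mulVec_neg, Matrix.neg_vecMulVec]

theorem AD_dyad_odot (G : Matrix (Fin 3) (Fin 3) K) (hG : Gᵀ = G) (u w z : Fin 3 → K) :
    crossM (vecMulVec u (G *ᵥ u)) (odot G w z)
      = vecMulVec (G.adjugate *ᵥ crossProduct u w) (crossProduct u z)
        + vecMulVec (G.adjugate *ᵥ crossProduct u z) (crossProduct u w) := by
  rw [odot, AD_cross_add, AD_vec, AD_vec, AD_cross_G G hG, AD_cross_G G hG, add_comm]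

theorem AD_dyad_dyad (G : Matrix (Fin 3) (Fin 3) K) (hG : Gᵀ = G) (u w : Fin 3 → K) :
    crossM (vecMulVec u (G *ᵥ u)) (vecMulVec w (G *ᵥ w))
      = vecMulVec (G.adjugate *ᵥ crossProduct u w) (crossProduct u w) := by
  rw [AD_vec, AD_cross_G G hG]

/-- `(A × (u ⊙ w))` paired with `X` on both sides, `A` self-adjoint: Killing identity -/
theorem AD_killing (G A : Matrix (Fin 3) (Fin 3) K) (hG : Gᵀ = G) (hA : (G * A)ᵀ = G * A)
    (u w : Fin 3 → K) : bil G u ((crossM A (odot G u w)) *ᵥ u) = 0 := by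
  have hs : ∀ x y : Fin 3 → K, x ⬝ᵥ (G *ᵥ y) = y ⬝ᵥ (G *ᵥ x) := by
    intro x y
    rw [Matrix.dotProduct_mulVec, ← Matrix.mulVec_transpose, hG, dotProduct_comm]
  have hsA : ∀ x y : Fin 3 → K, x ⬝ᵥ (G *ᵥ (A *ᵥ y)) = y ⬝ᵥ (G *ᵥ (A *ᵥ x)) := by
    intro x y
    rw [Matrix.mulVec_mulVec, Matrix.mulVec_mulVec, Matrix.dotProduct_mulVec,
      ← Matrix.mulVec_transpose, hA, dotProduct_comm]
  have hO : ∀ y : Fin 3 → K, odot G u w *ᵥ y
      = (y ⬝ᵥ (G *ᵥ w)) • u + (y ⬝ᵥ (G *ᵥ u)) • w := by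
    intro y
    ext i
    simp only [odot, Matrix.add_apply, Pi.add_apply, Pi.smul_apply, smul_eq_mul,
      Matrix.mulVec, Matrix.vecMulVec_apply, dotProduct, Fin.sum_univ_three]
    ring
  have htr : (odot G u w).trace = 2 * (u ⬝ᵥ (G *ᵥ w)) := by
    have h1 := hs w u
    simp only [odot, Matrix.trace_add, Matrix.trace_vecMulVec]
    rw [h1]; ring
  have htrA : (A * odot G u w).trace = 2 * (u ⬝ᵥ (G *ᵥ (A *ᵥ w))) := by
    have h1 : A * odot G u w = vecMulVec (A *ᵥ u) (G *ᵥ w) + vecMulVec (A *ᵥ w) (G *ᵥ u) := by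
      rw [odot, Matrix.mul_add, Matrix.mul_vecMulVec, Matrix.mul_vecMulVec]
    rw [h1, Matrix.trace_add, Matrix.trace_vecMulVec, Matrix.trace_vecMulVec,
      hs (A *ᵥ u) w, hs (A *ᵥ w) u, hsA w u]
    ring
  have hmv : crossM A (odot G u w) *ᵥ u
      = A *ᵥ (odot G u w *ᵥ u) + odot G u w *ᵥ (A *ᵥ u) - A.trace • (odot G u w *ᵥ u)
        - (odot G u w).trace • (A *ᵥ u)
        + (A.trace * (odot G u w).trace - (A * odot G u w).trace) • u := by
    simp only [crossM, Matrix.add_mulVec, Matrix.sub_mulVec, Matrix.smul_mulVec,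
      Matrix.one_mulVec, Matrix.mulVec_mulVec]
  rw [hmv, htr, htrA, hO, hO]
  simp only [bil, Matrix.mulVec_add, Matrix.mulVec_sub, Matrix.mulVec_smul, dotProduct_add,
    dotProduct_sub, dotProduct_smul, smul_eq_mul]
  rw [hs (A *ᵥ u) w, hs (A *ᵥ u) u, hsA w u]
  ring

end

end Pool.Agent.helper68.B2
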